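import Mathlib
import Pool.Agent.Helper24.H2.Defs
import Pool.Agent.Helper60.HN.ExPoly

/-!
# Type 2: the example, definitions and formulas over any algebra over the rationals

With `n = m + 1`, `X_i = x_i` (`i < m`), `X_m = x_(m+1)`, `X_(m+1) = x_m`, `λ = lam (m - 1)`:
`L_r = x_0 y_(r+2) + X_(r+1) y_0 - X_(r+2) y_1` (`r < m - 1`),
`S = x_0^2 y_n + x_0 x_m (y_1 - m y_0) + x_n^2 (y_1 + y_3) + 2 x_3 x_n (y_1 - y_0)`,
`T = x_0 y_0 y_n + (x_m - x_(m-1)) y_0^2 + x_n y_0 y_1 + Λ(x) (y_1^2 - y_0 y_1)`,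
`Λ(x) = ∑ λ_(m-i) X_i`.
-/

namespace Pool.Agent.Helper60.H2

open MvPolynomial Pool.Agent.Helper24.H2
open Pool.Agent.Helper28.HN (I Un En cr aff)
open Pool.Agent.Helper60.HN (ix sg lam mu li li_sg)

/-- The coordinate `X_(r + 2)`. -/
def xs {m : ℕ} (r : Fin m) : I m := if r.val + 2 = m then ix m (m + 1) else r.succ.succ

/-- The coefficients of the linear form `Λ`. -/
noncomputable def La (m : ℕ) : I m → ℚ := fun i =>
  if i.val = m then 0 else if i.val = m + 1 then (lam (m - 1)).coeff 0 else (lam (m - 1)).coeff (m - i.val)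

/-- A decomposable tensor. -/
def tn {m : ℕ} (α β γ : I m → ℚ) (p : I m × I m × I m) : ℚ := α p.1 * β p.2.1 * γ p.2.2

/-- The coefficients of the example. -/
noncomputable def c0 (m : ℕ) : Ix m → ℚ
  | .inl (r, i, j) => sg 0 i * sg r.1.succ.succ j + sg r.1.castSucc.succ i * sg 0 j - sg (xs r.1) i * sg 1 j
  | .inr (.inl p) =>
    (1 / 2) * tn (sg 0) (sg 0) (sg (ix m (m + 1))) p +
    (1 / 2) * tn (sg 0) (sg (ix m m)) (fun i => sg 1 i - m * sg 0 i) p +
    (1 / 2) * tn (sg (ix m (m + 1))) (sg (ix m (m + 1))) (fun i => sg 1 i + sg (ix m 3) i) p +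
    1 * tn (sg (ix m 3)) (sg (ix m (m + 1))) (fun i => sg 1 i - sg 0 i) p
  | .inr (.inr p) =>
    (1 / 2) * tn (sg 0) (sg 0) (sg (ix m (m + 1))) p +
    (1 / 2) * tn (fun i => sg (ix m m) i - sg (ix m (m - 1)) i) (sg 0) (sg 0) p +
    (1 / 2) * tn (sg (ix m (m + 1))) (sg 0) (sg 1) p +
    (1 / 2) * tn (La m) (sg 1) (fun i => sg 1 i - sg 0 i) p

/-- The point of the example. -/
noncomputable def k0 (m : ℕ) : Un m → ℚ
  | .inl _ => 0
  | .inr a => if a = Fin.last (m + 1) then -1 else (a.val : ℚ)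

section formulas

variable {m : ℕ} {S : Type*} [CommRing S] [Algebra ℚ S]

/-- The coefficients in `S`. -/
noncomputable def cS (m : ℕ) (S : Type*) [CommRing S] [Algebra ℚ S] : Ix m → S := fun e => algebraMap ℚ S (c0 m e)

/-- One half. -/
noncomputable def hf (S : Type*) [CommRing S] [Algebra ℚ S] : S := algebraMap ℚ S (1 / 2)

theorem hf_add : hf S + hf S = 1 := by
  unfold hf
  rw [← map_add, ← map_one (algebraMap ℚ S)]
  norm_num

theorem li_add (α β : I m → ℚ) (x : I m → S) : li (fun i => α i + β i) x = li α x + li β x := by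
  unfold li
  rw [← Finset.sum_add_distrib]
  refine Finset.sum_congr rfl fun i _ => ?_
  rw [map_add, add_mul]

theorem li_sub (α β : I m → ℚ) (x : I m → S) : li (fun i => α i - β i) x = li α x - li β x := by
  unfold li
  rw [← Finset.sum_sub_distrib]
  refine Finset.sum_congr rfl fun i _ => ?_
  rw [map_sub, sub_mul]

theorem li_mul (q : ℚ) (α : I m → ℚ) (x : I m → S) : li (fun i => q * α i) x = algebraMap ℚ S q * li α x := by
  unfold li
  rw [Finset.mul_sum]
  refine Finset.sum_congr rfl fun i _ => ?_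
  rw [map_mul, mul_assoc]

theorem bf_ex (r : Bi m) (x y : I m → S) :
    bf (cS m S) r x y = x 0 * y r.1.succ.succ + x r.1.castSucc.succ * y 0 - x (xs r.1) * y 1 := by
  have h : ∀ (α β : I m → ℚ), ∑ i, ∑ j, algebraMap ℚ S (α i * β j) * x i * y j = li α x * li β y := by
    intro α β
    unfold li
    rw [Finset.sum_mul_sum]
    refine Finset.sum_congr rfl fun i _ => Finset.sum_congr rfl fun j _ => ?_
    rw [map_mul]
    ring
  have h2 : bf (cS m S) r x y = (∑ i, ∑ j, algebraMap ℚ S (sg 0 i * sg r.1.succ.succ j) * x i * y j) +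
      (∑ i, ∑ j, algebraMap ℚ S (sg r.1.castSucc.succ i * sg 0 j) * x i * y j) -
      ∑ i, ∑ j, algebraMap ℚ S (sg (xs r.1) i * sg 1 j) * x i * y j := by
    unfold bf cS c0
    rw [← Finset.sum_add_distrib, ← Finset.sum_sub_distrib]
    refine Finset.sum_congr rfl fun i _ => ?_
    rw [← Finset.sum_add_distrib, ← Finset.sum_sub_distrib]
    refine Finset.sum_congr rfl fun j _ => ?_
    rw [map_sub, map_add]
    ring
  rw [h2, h, h, h]
  simp only [li_sg]

/-- The sum over a tensor. -/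
noncomputable def t3 (t : I m × I m × I m → ℚ) (x y z : I m → S) : S :=
  ∑ i, ∑ j, ∑ k, algebraMap ℚ S (t (i, j, k)) * x i * y j * z k

theorem t3_add (t t' : I m × I m × I m → ℚ) (x y z : I m → S) :
    t3 (fun p => t p + t' p) x y z = t3 t x y z + t3 t' x y z := by
  unfold t3
  simp only [← Finset.sum_add_distrib]
  refine Finset.sum_congr rfl fun i _ => Finset.sum_congr rfl fun j _ => Finset.sum_congr rfl fun k _ => ?_
  rw [map_add]
  ring

theorem t3_mul (q : ℚ) (t : I m × I m × I m → ℚ) (x y z : I m → S) :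
    t3 (fun p => q * t p) x y z = algebraMap ℚ S q * t3 t x y z := by
  unfold t3
  simp only [Finset.mul_sum]
  refine Finset.sum_congr rfl fun i _ => Finset.sum_congr rfl fun j _ => Finset.sum_congr rfl fun k _ => ?_
  rw [map_mul]
  ring

theorem t3_tn (α β γ : I m → ℚ) (x y z : I m → S) : t3 (tn α β γ) x y z = li α x * li β y * li γ z := by
  unfold t3 li tn
  rw [Finset.sum_mul_sum, Finset.sum_mul]
  refine Finset.sum_congr rfl fun i _ => ?_
  rw [Finset.sum_mul]
  refine Finset.sum_congr rfl fun j _ => ?_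
  rw [Finset.mul_sum]
  refine Finset.sum_congr rfl fun k _ => ?_
  rw [map_mul, map_mul]
  ring

theorem sf_eq_t3 (x x' y : I m → S) :
    sf (cS m S) x x' y = t3 (fun p => c0 m (.inr (.inl p))) x x' y + t3 (fun p => c0 m (.inr (.inl p))) x' x y := by
  have h : t3 (fun p => c0 m (.inr (.inl p))) x' x y =
      ∑ i, ∑ j, ∑ k, algebraMap ℚ S (c0 m (.inr (.inl (j, i, k)))) * x i * x' j * y k := by
    unfold t3
    rw [Finset.sum_comm]
    refine Finset.sum_congr rfl fun i _ => Finset.sum_congr rfl fun j _ => Finset.sum_congr rfl fun k _ => ?_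
    ring
  rw [h]
  unfold sf t3 cS
  simp only [← Finset.sum_add_distrib]
  refine Finset.sum_congr rfl fun i _ => Finset.sum_congr rfl fun j _ => Finset.sum_congr rfl fun k _ => ?_
  ring

theorem tf_eq_t3 (x y y' : I m → S) :
    tf (cS m S) x y y' = t3 (fun p => c0 m (.inr (.inr p))) x y y' + t3 (fun p => c0 m (.inr (.inr p))) x y' y := by
  have h : t3 (fun p => c0 m (.inr (.inr p))) x y' y =
      ∑ i, ∑ j, ∑ k, algebraMap ℚ S (c0 m (.inr (.inr (i, k, j)))) * x i * y j * y' k := by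
    unfold t3
    refine Finset.sum_congr rfl fun i _ => ?_
    rw [Finset.sum_comm]
    refine Finset.sum_congr rfl fun j _ => Finset.sum_congr rfl fun k _ => ?_
    ring
  rw [h]
  unfold tf t3 cS
  simp only [← Finset.sum_add_distrib]
  refine Finset.sum_congr rfl fun i _ => Finset.sum_congr rfl fun j _ => Finset.sum_congr rfl fun k _ => ?_
  ring

theorem sf_ex (x x' y : I m → S) :
    sf (cS m S) x x' y = x 0 * x' 0 * y (ix m (m + 1)) +
      hf S * ((x 0 * x' (ix m m) + x (ix m m) * x' 0) * (y 1 - m * y 0)) +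
      x (ix m (m + 1)) * x' (ix m (m + 1)) * (y 1 + y (ix m 3)) +
      (x (ix m 3) * x' (ix m (m + 1)) + x (ix m (m + 1)) * x' (ix m 3)) * (y 1 - y 0) := by
  rw [sf_eq_t3]
  unfold c0
  simp only [t3_add, t3_mul, t3_tn, li_add, li_sub, li_mul, li_sg, map_natCast, map_one]
  have h : algebraMap ℚ S (1 / 2) = hf S := rfl
  rw [h]
  linear_combination (x 0 * x' 0 * y (ix m (m + 1)) +
    x (ix m (m + 1)) * x' (ix m (m + 1)) * (y 1 + y (ix m 3))) * hf_add (S := S)

theorem tf_ex (x y y' : I m → S) :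
    tf (cS m S) x y y' = hf S * (x 0 * (y 0 * y' (ix m (m + 1)) + y (ix m (m + 1)) * y' 0)) +
      (x (ix m m) - x (ix m (m - 1))) * (y 0 * y' 0) +
      hf S * (x (ix m (m + 1)) * (y 0 * y' 1 + y 1 * y' 0)) +
      li (La m) x * (y 1 * y' 1 - hf S * (y 0 * y' 1 + y 1 * y' 0)) := by
  rw [tf_eq_t3]
  unfold c0
  simp only [t3_add, t3_mul, t3_tn, li_sub, li_sg]
  have h : algebraMap ℚ S (1 / 2) = hf S := rfl
  rw [h]
  linear_combination ((x (ix m m) - x (ix m (m - 1))) * (y 0 * y' 0) +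
    li (La m) x * (y 1 * y' 1)) * hf_add (S := S)

end formulas

end Pool.Agent.Helper60.H2
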