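import Mathlib
import Pool.Agent.Helper60.H2.ExDefs

/-!
# Type 2: the example, the geometry
-/

namespace Pool.Agent.Helper60.H2

open MvPolynomial Pool.Agent.Helper24.H2
open Pool.Agent.Helper28.HN (I Un En cr aff)
open Pool.Agent.Helper60.HN (ix sg lam mu li li_sg ix_val ix_eq ix_succ ix_cast)

variable {m : ℕ} {S : Type*} [CommRing S] [Algebra ℚ S]

/-- A point near the base point. -/
structure Nil (x : I m → S) : Prop where
  one : x 0 = 1
  sq : ∀ i j : I m, i ≠ 0 → j ≠ 0 → x i * x j = 0

omit [Algebra ℚ S] in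
theorem ix_ne {j : ℕ} (h1 : 1 ≤ j) (h2 : j ≤ m + 1) : ix m j ≠ 0 := by
  intro h
  have := congrArg Fin.val h
  rw [ix_val h2] at this
  simp at this
  omega

omit [Algebra ℚ S] in
theorem sq_ix {x : I m → S} (h : Nil x) {i j : ℕ} (h1 : 1 ≤ i) (h2 : i ≤ m + 1) (h3 : 1 ≤ j) (h4 : j ≤ m + 1) :
    x (ix m i) * x (ix m j) = 0 :=
  h.sq _ _ (ix_ne h1 h2) (ix_ne h3 h4)

omit [Algebra ℚ S] in
theorem sin_ne {i j : I m} (h : i.val ≠ j.val) : (Pi.single j 1 : I m → S) i = 0 :=
  Pi.single_eq_of_ne (fun h' => h (congrArg Fin.val h')) _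

theorem lx_lt {r : Fin m} (h : r.val + 1 < m) (x y : I m → S) :
    lx (cS m S) r x y = x 0 * y r.succ.succ + x r.castSucc.succ * y 0 - x (xs r) * y 1 := by
  unfold lx
  rw [dif_pos h, bf_ex]

theorem lx_ge {r : Fin m} (h : ¬ r.val + 1 < m) (x y : I m → S) : lx (cS m S) r x y = sf (cS m S) x x y := by
  unfold lx
  rw [dif_neg h]

theorem ly_lt {r : Fin m} (h : r.val + 1 < m) (x y : I m → S) :
    ly (cS m S) r x y = x 0 * y r.succ.succ + x r.castSucc.succ * y 0 - x (xs r) * y 1 := by
  unfold ly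
  rw [dif_pos h, bf_ex]

theorem ly_ge {r : Fin m} (h : ¬ r.val + 1 < m) (x y : I m → S) : ly (cS m S) r x y = tf (cS m S) x y y := by
  unfold ly
  rw [dif_neg h]

omit [Algebra ℚ S] in
theorem sq_last {x : I m → S} (hx : Nil x) : x (ix m (m + 1)) * x (ix m (m + 1)) = 0 :=
  sq_ix hx (by omega) le_rfl (by omega) le_rfl

omit [Algebra ℚ S] in
theorem sq_three {x : I m → S} (hm : 4 ≤ m) (hx : Nil x) : x (ix m 3) * x (ix m (m + 1)) = 0 :=
  sq_ix hx (by omega) (by omega) (by omega) le_rfl

theorem val_one : ((1 : I m)).val = 1 := by simp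

theorem Mx_ex (hm : 4 ≤ m) {x : I m → S} (hx : Nil x) : Mx (cS m S) x = 1 := by
  ext r b
  unfold Mx
  have h1 : (Pi.single b.succ.succ 1 : I m → S) 0 = 0 := sin_ne (by simp)
  have h2 : (Pi.single b.succ.succ 1 : I m → S) 1 = 0 := sin_ne (by simp)
  rw [Matrix.one_apply]
  by_cases hr : r.val + 1 < m
  · rw [lx_lt hr, hx.one, h1, h2]
    by_cases h : r = b
    · subst h
      simp
    · rw [if_neg h, sin_ne]
      · ring
      · intro h3
        simp at h3
        exact h (Fin.ext h3)
  · rw [lx_ge hr, sf_ex, hx.one, h1, h2]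
    have e1 := sq_last hx
    have e2 := sq_three hm hx
    by_cases h : r = b
    · subst h
      have h3 : (Pi.single r.succ.succ 1 : I m → S) (ix m (m + 1)) = 1 := by
        have : r.succ.succ = ix m (m + 1) := by
          refine Fin.ext ?_
          rw [ix_val le_rfl]
          have := r.isLt
          simp
          omega
        rw [this, Pi.single_eq_same]
      rw [if_pos rfl, h3]
      linear_combination ((Pi.single r.succ.succ 1 : I m → S) (ix m 3)) * e1
    · have h3 : (Pi.single b.succ.succ 1 : I m → S) (ix m (m + 1)) = 0 := by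
        refine sin_ne ?_
        rw [ix_val le_rfl]
        intro h4
        refine h (Fin.ext ?_)
        simp at h4
        have := r.isLt
        omega
      rw [if_neg h, h3]
      linear_combination ((Pi.single b.succ.succ 1 : I m → S) (ix m 3)) * e1

/-- The solution of the equations of the line over `x` for given first coordinates. -/
theorem sol_ex (hm : 4 ≤ m) {x : I m → S} (hx : Nil x) (v : I m → S) (j : Fin m) :
    (- ((Mx (cS m S) x).adjugate.mulVec fun r => lx (cS m S) r x v)) j = - lx (cS m S) j x v := by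
  rw [Mx_ex hm hx, Matrix.adjugate_one, Matrix.one_mulVec]
  rfl

theorem Y0_zero (hm : 4 ≤ m) {x : I m → S} (hx : Nil x) : Y0 (cS m S) x 0 = 1 := by
  unfold Y0
  rw [Fin.cons_zero, Mx_ex hm hx, Matrix.det_one]

theorem Y0_one (x : I m → S) : Y0 (cS m S) x 1 = 0 := rfl

theorem Y1_zero (x : I m → S) : Y1 (cS m S) x 0 = 0 := rfl

theorem Y1_one (hm : 4 ≤ m) {x : I m → S} (hx : Nil x) : Y1 (cS m S) x 1 = 1 := by
  have h : Y1 (cS m S) x 1 = (Mx (cS m S) x).det := rfl
  rw [h, Mx_ex hm hx, Matrix.det_one]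

theorem last_eq (hm : 4 ≤ m) : (⟨m - 1, by omega⟩ : Fin m).succ.succ = ix m (m + 1) := by
  rw [ix_succ (by omega)]
  congr 1
  omega

theorem Y0_last (hm : 4 ≤ m) {x : I m → S} (hx : Nil x) : Y0 (cS m S) x (ix m (m + 1)) = m * x (ix m m) := by
  have e2 := sq_three hm hx
  rw [← last_eq hm]
  unfold Y0
  rw [Fin.cons_succ, Fin.cons_succ, sol_ex hm hx, lx_ge (by simp; omega), sf_ex, hx.one]
  have h0 : (Pi.single 0 1 : I m → S) 0 = 1 := Pi.single_eq_same _ _
  have h1 : (Pi.single 0 1 : I m → S) 1 = 0 := sin_ne (by simp)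
  have h2 : (Pi.single 0 1 : I m → S) (ix m (m + 1)) = 0 := sin_ne (by rw [ix_val le_rfl]; simp)
  have h3 : (Pi.single 0 1 : I m → S) (ix m 3) = 0 := sin_ne (by rw [ix_val (by omega)]; simp)
  rw [h0, h1, h2, h3]
  linear_combination 2 * e2 + m * x (ix m m) * hf_add (S := S)

theorem Y1_last (hm : 4 ≤ m) {x : I m → S} (hx : Nil x) : Y1 (cS m S) x (ix m (m + 1)) = - x (ix m m) := by
  have e1 := sq_last hx
  have e2 := sq_three hm hx
  rw [← last_eq hm]
  unfold Y1
  rw [Fin.cons_succ, Fin.cons_succ, sol_ex hm hx, lx_ge (by simp; omega), sf_ex, hx.one]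
  have h0 : (Pi.single 1 1 : I m → S) 0 = 0 := sin_ne (by simp)
  have h1 : (Pi.single 1 1 : I m → S) 1 = 1 := Pi.single_eq_same _ _
  have h2 : (Pi.single 1 1 : I m → S) (ix m (m + 1)) = 0 := sin_ne (by rw [ix_val le_rfl]; simp; omega)
  have h3 : (Pi.single 1 1 : I m → S) (ix m 3) = 0 := sin_ne (by rw [ix_val (by omega)]; simp)
  rw [h0, h1, h2, h3]
  linear_combination - e1 - 2 * e2 - x (ix m m) * hf_add (S := S)

theorem Y0_three (hm : 4 ≤ m) {x : I m → S} (hx : Nil x) : Y0 (cS m S) x (ix m 3) = - x (ix m 2) := by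
  have h := ix_succ (m := m) (j := 1) (by omega)
  rw [← h]
  unfold Y0
  rw [Fin.cons_succ, Fin.cons_succ, sol_ex hm hx, lx_lt (by simp; omega), hx.one,
    ix_cast (m := m) (j := 1) (by omega)]
  have h0 : (Pi.single 0 1 : I m → S) 0 = 1 := Pi.single_eq_same _ _
  have h1 : (Pi.single 0 1 : I m → S) 1 = 0 := sin_ne (by simp)
  have h2 : (Pi.single 0 1 : I m → S) (⟨1, by omega⟩ : Fin m).succ.succ = 0 := sin_ne (by simp)
  rw [h0, h1, h2]
  ring

theorem Y1_three (hm : 4 ≤ m) {x : I m → S} (hx : Nil x) : Y1 (cS m S) x (ix m 3) = x (ix m 3) := by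
  have h := ix_succ (m := m) (j := 1) (by omega)
  have h4 : xs (⟨1, by omega⟩ : Fin m) = ix m 3 := by
    unfold xs
    rw [if_neg (by simp; omega), h]
  rw [← h]
  unfold Y1
  rw [Fin.cons_succ, Fin.cons_succ, sol_ex hm hx, lx_lt (by simp; omega), hx.one, h4, h]
  have h0 : (Pi.single 1 1 : I m → S) 0 = 0 := sin_ne (by simp)
  have h1 : (Pi.single 1 1 : I m → S) 1 = 1 := Pi.single_eq_same _ _
  have h2 : (Pi.single 1 1 : I m → S) (ix m 3) = 0 := sin_ne (by rw [ix_val (by omega)]; simp)
  rw [h0, h1, h2]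
  ring

theorem yh_zero (hm : 4 ≤ m) {x : I m → S} (hx : Nil x) (z : S) : yh (cS m S) x z 0 = 1 := by
  unfold yh
  rw [Y0_zero hm hx, Y1_zero]
  ring

theorem yh_one (hm : 4 ≤ m) {x : I m → S} (hx : Nil x) (z : S) : yh (cS m S) x z 1 = z := by
  unfold yh
  rw [Y0_one, Y1_one hm hx]
  ring

theorem yh_three (hm : 4 ≤ m) {x : I m → S} (hx : Nil x) (z : S) :
    yh (cS m S) x z (ix m 3) = z * x (ix m 3) - x (ix m 2) := by
  unfold yh
  rw [Y0_three hm hx, Y1_three hm hx]
  ring

theorem yh_last (hm : 4 ≤ m) {x : I m → S} (hx : Nil x) (z : S) :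
    yh (cS m S) x z (ix m (m + 1)) = - (x (ix m m) * (z - m)) := by
  unfold yh
  rw [Y0_last hm hx, Y1_last hm hx]
  ring

/-! ## The line over `y` -/

omit [Algebra ℚ S] in
theorem ly_lin (c : Ix m → S) (r : Fin m) (x y : I m → S) :
    ly c r x y = ∑ i, x i * ly c r (Pi.single i 1) y := by
  unfold ly
  split_ifs with h
  · unfold bf
    have h1 : ∀ a : I m, ∑ i, ∑ j, c (.inl (⟨r, h⟩, i, j)) * (Pi.single a 1 : I m → S) i * y j =
        ∑ j, c (.inl (⟨r, h⟩, a, j)) * y j := by
      intro a
      rw [Finset.sum_eq_single a]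
      · refine Finset.sum_congr rfl fun j _ => ?_
        rw [Pi.single_eq_same, mul_one]
      · intro b _ hb
        refine Finset.sum_eq_zero fun j _ => ?_
        rw [Pi.single_eq_of_ne hb]
        ring
      · intro h'
        exact absurd (Finset.mem_univ _) h'
    refine Finset.sum_congr rfl fun i _ => ?_
    rw [h1, Finset.mul_sum]
    refine Finset.sum_congr rfl fun j _ => ?_
    ring
  · unfold tf
    have h1 : ∀ a : I m, ∑ i, ∑ j, ∑ k, (c (.inr (.inr (i, j, k))) + c (.inr (.inr (i, k, j)))) *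
        (Pi.single a 1 : I m → S) i * y j * y k =
        ∑ j, ∑ k, (c (.inr (.inr (a, j, k))) + c (.inr (.inr (a, k, j)))) * y j * y k := by
      intro a
      rw [Finset.sum_eq_single a]
      · refine Finset.sum_congr rfl fun j _ => Finset.sum_congr rfl fun k _ => ?_
        rw [Pi.single_eq_same, mul_one]
      · intro b _ hb
        refine Finset.sum_eq_zero fun j _ => Finset.sum_eq_zero fun k _ => ?_
        rw [Pi.single_eq_of_ne hb]
        ring
      · intro h'
        exact absurd (Finset.mem_univ _) h'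
    refine Finset.sum_congr rfl fun i _ => ?_
    rw [h1]
    simp only [Finset.mul_sum]
    refine Finset.sum_congr rfl fun j _ => Finset.sum_congr rfl fun k _ => ?_
    ring

theorem La_m : La m (ix m m) = 0 := by
  unfold La
  rw [ix_val (by omega), if_pos rfl]

theorem li_single (α : I m → ℚ) (i : I m) : li α (Pi.single i 1 : I m → S) = algebraMap ℚ S (α i) := by
  unfold li
  rw [Finset.sum_eq_single i]
  · rw [Pi.single_eq_same, mul_one]
  · intro b _ hb
    rw [Pi.single_eq_of_ne hb, mul_zero]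
  · intro h
    exact absurd (Finset.mem_univ _) h

theorem Nx_ex (y : I m → S) {r : Fin m} (hr : r.val + 1 < m) (i : Fin m) :
    Nx (cS m S) y r i = (if i = r then y 0 else 0) - if i.val = r.val + 1 ∧ i.val + 1 < m then y 1 else 0 := by
  unfold Nx
  rw [ly_lt hr]
  have h1 : (Pi.single i.castSucc.succ 1 : I m → S) 0 = 0 := sin_ne (by simp)
  have h2 : (Pi.single i.castSucc.succ 1 : I m → S) r.castSucc.succ = if i = r then 1 else 0 := by
    by_cases h : i = r
    · rw [if_pos h, h, Pi.single_eq_same]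
    · rw [if_neg h, sin_ne]
      intro h3
      simp at h3
      exact h (Fin.ext h3.symm)
  have h3 : (Pi.single i.castSucc.succ 1 : I m → S) (xs r) = if i.val = r.val + 1 ∧ i.val + 1 < m then 1 else 0 := by
    unfold xs
    by_cases h4 : r.val + 2 = m
    · rw [if_pos h4, if_neg (by omega), sin_ne]
      rw [ix_val le_rfl]
      have := i.isLt
      simp
      omega
    · rw [if_neg h4]
      by_cases h : i.val = r.val + 1
      · rw [if_pos ⟨h, by omega⟩]
        have h5 : r.succ.succ = i.castSucc.succ := by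
          refine Fin.ext ?_
          simp
          omega
        rw [h5, Pi.single_eq_same]
      · rw [if_neg (fun h' => h h'.1), sin_ne]
        intro h5
        simp at h5
        omega
  rw [h1, h2, h3]
  split_ifs <;> ring

theorem det_Nx (hm : 4 ≤ m) (y : I m → S) (h : y 0 = 1) : (Nx (cS m S) y).det = 1 := by
  obtain ⟨k, rfl⟩ : ∃ k, m = k + 1 := ⟨m - 1, by omega⟩
  rw [Matrix.det_succ_column _ (Fin.last k), Finset.sum_eq_single (Fin.last k)]
  · have h1 : Nx (cS (k + 1) S) y (Fin.last k) (Fin.last k) = 1 := by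
      unfold Nx
      have e0 : (Fin.last k).castSucc.succ = ix (k + 1) (k + 1) := by
        refine Fin.ext ?_
        rw [ix_val (by omega)]
        simp
      rw [ly_ge (by simp), tf_ex, li_single, e0, La_m, map_zero, Pi.single_eq_same]
      rw [sin_ne (by rw [ix_val (by omega)]; simp), sin_ne (by rw [ix_val (by omega), ix_val (by omega)]; simp),
        sin_ne (by rw [ix_val (by omega), ix_val (by omega)]; simp), h]
      ring
    have h2 : ((Nx (cS (k + 1) S) y).submatrix (Fin.last k).succAbove (Fin.last k).succAbove).det = 1 := by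
      rw [Matrix.det_of_isUpperTriangular]
      · refine Finset.prod_eq_one fun i _ => ?_
        rw [Matrix.submatrix_apply, Fin.succAbove_last, Nx_ex y (by simp), if_pos rfl, if_neg (by simp), h, sub_zero]
      · intro r i hir
        have h3 : i < r := hir
        have h4 : i.val < r.val := h3
        rw [Matrix.submatrix_apply, Fin.succAbove_last, Nx_ex y (by simp), if_neg, if_neg, sub_zero]
        · intro h5
          have := h5.1
          simp at this
          omega
        · intro h5
          have := congrArg Fin.val h5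
          simp at this
          omega
    rw [h1, h2, ← two_mul, pow_mul]
    simp
  · intro r _ hr
    have h3 : r.val < k := by
      have := r.isLt
      by_contra h4
      exact hr (Fin.ext (by simp; omega))
    rw [Nx_ex y (by omega), if_neg (fun h4 => hr h4.symm), if_neg (by simp)]
    ring
  · intro h'
    exact absurd (Finset.mem_univ _) h'

/-- The value of `λ`. -/
noncomputable def lm (m : ℕ) (z : S) : S := Polynomial.aeval z (lam (m - 1))

/-- The point with `x 0 = 0` over `y`. -/
noncomputable def xe (m : ℕ) (z : S) : I m → S := fun j =>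
  if j.val = 0 then 0 else if j.val = m + 1 then 1 else if j.val = m then - (z * (z - 1) * lm m z) else z ^ (m - j.val)

theorem xe_zero (z : S) : xe m z 0 = 0 := rfl

theorem xe_last (z : S) : xe m z (ix m (m + 1)) = 1 := by
  unfold xe
  rw [ix_val le_rfl, if_neg (by omega), if_pos rfl]

theorem xe_m (hm : 4 ≤ m) (z : S) : xe m z (ix m m) = - (z * (z - 1) * lm m z) := by
  unfold xe
  rw [ix_val (by omega), if_neg (by omega), if_neg (by omega), if_pos rfl]

theorem xe_ix (z : S) {j : ℕ} (h1 : 1 ≤ j) (h2 : j < m) : xe m z (ix m j) = z ^ (m - j) := by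
  unfold xe
  rw [ix_val (by omega), if_neg (by omega), if_neg (by omega), if_neg (by omega)]

theorem li_xe (hm : 4 ≤ m) (z : S) : li (La m) (xe m z) = lm m z := by
  obtain ⟨k, rfl⟩ : ∃ k, m = k + 1 := ⟨m - 1, by omega⟩
  have hdeg : (lam k).natDegree < k + 1 := by
    have h := Pool.Agent.Helper60.HN.mu_deg k (by omega)
    unfold lam
    refine lt_of_le_of_lt (Polynomial.natDegree_C_mul_le _ _) ?_
    omega
  have hl : lm (k + 1) z = Polynomial.aeval z (lam k) := rfl
  rw [hl, Polynomial.aeval_eq_sum_range' hdeg, li, Fin.sum_univ_succ, xe_zero, mul_zero, zero_add]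
  rw [Fin.sum_univ_castSucc, Fin.sum_univ_castSucc]
  have h1 : La (k + 1) (Fin.last k).castSucc.succ = 0 := by
    unfold La
    rw [if_pos (by simp)]
  have h2 : algebraMap ℚ S (La (k + 1) (Fin.last (k + 1)).succ) * xe (k + 1) z (Fin.last (k + 1)).succ =
      (lam k).coeff 0 • z ^ 0 := by
    unfold La xe
    rw [if_neg (by simp), if_pos (by simp), if_neg (by simp), if_pos (by simp), pow_zero, Algebra.smul_def]
    rfl
  have h3 : ∀ i : Fin k, algebraMap ℚ S (La (k + 1) i.castSucc.castSucc.succ) * xe (k + 1) z i.castSucc.castSucc.succ =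
      (lam k).coeff (k - i.val) • z ^ (k - i.val) := by
    intro i
    have h4 := i.isLt
    unfold La xe
    rw [if_neg (by simp; omega), if_neg (by simp; omega), if_neg (by simp), if_neg (by simp; omega),
      if_neg (by simp; omega), Algebra.smul_def]
    have h5 : k + 1 - i.castSucc.castSucc.succ.val = k - i.val := by simp
    rw [h5]
    rfl
  rw [h1, h2, map_zero, zero_mul, add_zero, Finset.sum_congr rfl fun i _ => h3 i,
    Fin.sum_univ_eq_sum_range (fun i => (lam k).coeff (k - i) • z ^ (k - i))]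
  have h6 := Finset.sum_range_reflect (fun i => (lam k).coeff i • z ^ i) (k + 1)
  rw [← h6, Finset.sum_range_succ]
  have h7 : k + 1 - 1 = k := by omega
  rw [h7, Nat.sub_self]

theorem ly_xe (hm : 4 ≤ m) (y : I m → S) (h : y 0 = 1) (r : Fin m) : ly (cS m S) r (xe m (y 1)) y = 0 := by
  by_cases hr : r.val + 1 < m
  · rw [ly_lt hr, xe_zero, h]
    have h1 : xe m (y 1) r.castSucc.succ = y 1 ^ (m - (r.val + 1)) := by
      have := ix_cast (m := m) (j := r.val) (by omega)
      rw [show r = ⟨r.val, by omega⟩ from rfl, this, xe_ix _ (by omega) hr]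
    have h2 : xe m (y 1) (xs r) = y 1 ^ (m - (r.val + 2)) := by
      unfold xs
      split_ifs with h3
      · rw [xe_last, h3, Nat.sub_self, pow_zero]
      · have := ix_succ (m := m) (j := r.val) (by omega)
        rw [show r = ⟨r.val, by omega⟩ from rfl, this, xe_ix _ (by omega) (by omega)]
    rw [h1, h2]
    have h3 : m - (r.val + 1) = (m - (r.val + 2)) + 1 := by omega
    rw [h3, pow_succ]
    ring
  · rw [ly_ge hr, tf_ex, xe_zero, xe_m hm, xe_last, li_xe hm, xe_ix _ (by omega) (by omega), h]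
    have h3 : m - (m - 1) = 1 := by omega
    rw [h3]
    linear_combination (y 1 - y 1 * lm m (y 1)) * hf_add (S := S)

theorem xh_ex (hm : 4 ≤ m) (y : I m → S) (h : y 0 = 1) : xh (cS m S) y = xe m (y 1) := by
  have hN : (Nx (cS m S) y).mulVec (fun i : Fin m => xe m (y 1) i.castSucc.succ) =
      - fun r => ly (cS m S) r (Pi.single (Fin.last (m + 1)) 1) y := by
    funext r
    have h1 := ly_lin (cS m S) r (xe m (y 1)) y
    rw [ly_xe hm y h, Fin.sum_univ_succ, xe_zero, zero_mul, zero_add, Fin.sum_univ_castSucc] at h1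
    have h2 : xe m (y 1) (Fin.last m).succ = 1 := by
      unfold xe
      rw [if_neg (by simp), if_pos (by simp)]
    have h3 : (Fin.last m).succ = Fin.last (m + 1) := rfl
    rw [h2, one_mul, h3] at h1
    rw [Pi.neg_apply, Matrix.mulVec, dotProduct]
    have h4 : ∑ i : Fin m, Nx (cS m S) y r i * xe m (y 1) i.castSucc.succ =
        ∑ i : Fin m, xe m (y 1) i.castSucc.succ * ly (cS m S) r (Pi.single i.castSucc.succ 1) y :=
      Finset.sum_congr rfl fun i _ => mul_comm _ _
    rw [h4]
    linear_combination - h1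
  have h1 : - ((Nx (cS m S) y).adjugate.mulVec fun r => ly (cS m S) r (Pi.single (Fin.last (m + 1)) 1) y) =
      fun i : Fin m => xe m (y 1) i.castSucc.succ := by
    rw [← Matrix.mulVec_neg, ← hN, Matrix.mulVec_mulVec, Matrix.adjugate_mul, det_Nx hm y h, one_smul,
      Matrix.one_mulVec]
  unfold xh vh
  rw [h1, det_Nx hm y h]
  funext i
  refine Fin.cases ?_ (fun i => ?_) i
  · rfl
  · rw [Fin.cons_succ]
    refine Fin.lastCases ?_ (fun j => ?_) i
    · rw [Fin.snoc_last]
      unfold xe
      rw [if_neg (by simp), if_pos (by simp)]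
    · rw [Fin.snoc_castSucc]

theorem vh_ex (hm : 4 ≤ m) (y : I m → S) (h : y 0 = 1) (i : Fin (m + 1)) :
    vh (cS m S) y i = xe m (y 1) i.succ := by
  have h1 := congrFun (xh_ex hm y h) i.succ
  rw [← h1]
  rfl

end Pool.Agent.Helper60.H2
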