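import Mathlib
import Pool.Agent.Helper60.H2.ExGeo

/-!
# Type 2: the example, the equations
-/

namespace Pool.Agent.Helper60.H2

open MvPolynomial Pool.Agent.Helper24.H2
open Pool.Agent.Helper28.HN (I Un En cr aff)
open Pool.Agent.Helper60.HN (ix sg lam mu li li_sg ix_val ix_eq ix_succ ix_cast)

variable {m : ℕ} {S : Type*} [CommRing S] [Algebra ℚ S]

theorem sf_xe (hm : 4 ≤ m) {x : I m → S} (hx : Nil x) (s z : S) :
    sf (cS m S) x (xe m s) (yh (cS m S) x z) = - (hf S * (s * (s - 1) * (z - m) * lm m s)) +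
      x (ix m (m + 1)) * z + (x (ix m 3) + x (ix m (m + 1)) * s ^ (m - 3)) * (z - 1) := by
  have e2 := sq_three hm hx
  have e3 : x (ix m 2) * x (ix m (m + 1)) = 0 := sq_ix hx (by omega) (by omega) (by omega) le_rfl
  rw [sf_ex, hx.one, xe_zero, xe_m hm, xe_last, xe_ix _ (by omega) (by omega), yh_zero hm hx, yh_one hm hx,
    yh_three hm hx]
  linear_combination z * e2 - e3

theorem psh_ex (hm : 4 ≤ m) {x : I m → S} (hx : Nil x) (z : S) :
    psh (cS m S) x z = - (hf S * (z * (z - 1) * (z - m) * lm m z)) +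
      x (ix m (m + 1)) * z + (x (ix m 3) + x (ix m (m + 1)) * z ^ (m - 3)) * (z - 1) := by
  unfold psh
  rw [xh_ex hm _ (yh_zero hm hx z), yh_one hm hx, sf_xe hm hx]

theorem kah_ex (hm : 4 ≤ m) {x : I m → S} (hx : Nil x) (z : S) :
    kah (cS m S) x z = z + (z * x (ix m 3) - x (ix m 2)) + 2 * (z ^ (m - 3) * (z - 1)) := by
  unfold kah
  rw [xh_ex hm _ (yh_zero hm hx z), yh_one hm hx, sf_ex, xe_zero, xe_m hm, xe_last, xe_ix _ (by omega) (by omega),
    yh_zero hm hx, yh_one hm hx, yh_three hm hx]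
  ring

theorem Fh_ex (hm : 4 ≤ m) {x : I m → S} (hx : Nil x) (z : S) :
    Fh (cS m S) x z = - (x (ix m m) * (z - m)) + (x (ix m m) - x (ix m (m - 1))) + x (ix m (m + 1)) * z +
      li (La m) x * (z ^ 2 - z) := by
  unfold Fh
  rw [tf_ex, hx.one, yh_zero hm hx, yh_one hm hx, yh_last hm hx]
  linear_combination (- (x (ix m m) * (z - m)) + x (ix m (m + 1)) * z - li (La m) x * z) * hf_add (S := S)

theorem Ah_ex (hm : 4 ≤ m) {x : I m → S} (hx : Nil x) : Ah (cS m S) x = li (La m) x := by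
  unfold Ah
  rw [tf_ex, Y1_zero, Y1_one hm hx]
  ring

theorem Bh_ex (hm : 4 ≤ m) {x : I m → S} (hx : Nil x) :
    Bh (cS m S) x = hf S * (x (ix m (m + 1)) - x (ix m m) - li (La m) x) := by
  unfold Bh
  rw [tf_ex, hx.one, Y1_zero, Y1_one hm hx, Y0_zero hm hx, Y0_one, Y1_last hm hx]
  ring

theorem tf_cons (hm : 4 ≤ m) {x : I m → S} (hx : Nil x) (z : S) (v : Fin m → S) :
    tf (cS m S) x (yh (cS m S) x z) (Fin.cons 0 (Fin.cons 0 v)) = hf S * v ⟨m - 1, by omega⟩ := by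
  rw [tf_ex, hx.one, yh_zero hm hx, yh_one hm hx, ← last_eq hm]
  have e0 : (Fin.cons 0 (Fin.cons 0 v) : I m → S) 0 = 0 := rfl
  have e1 : (Fin.cons 0 (Fin.cons 0 v) : I m → S) 1 = 0 := rfl
  rw [e0, e1, Fin.cons_succ, Fin.cons_succ]
  ring

theorem th_ex (hm : 4 ≤ m) {x : I m → S} (hx : Nil x) (z : S) : th (cS m S) x z = -1 := by
  unfold th
  rw [tf_cons hm hx, Mx_ex hm hx, Matrix.adjugate_one, Matrix.one_mulVec, if_neg (by simp; omega)]
  linear_combination - hf_add (S := S)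

/-- The direction at `z`. -/
theorem xz_ex (hm : 4 ≤ m) {u : Fin (m + 1) → S} (hx : Nil (aff u : I m → S)) (z : S) :
    xz (cS m S) u z = xe m z := by
  unfold xz
  rw [xh_ex hm _ (yh_zero hm hx z), yh_one hm hx]

theorem qh_ex (hm : 4 ≤ m) {u : Fin (m + 1) → S} (hx : Nil (aff u : I m → S)) (s z : S) :
    qh (cS m S) (aff u) (xz (cS m S) u s) z = - (s * (s - 1) * lm m s) + (z - s) + (z ^ 2 - z) * lm m s +
      s * (s - 1) * (z - m) * lm m s - 2 * (aff u (ix m (m + 1)) * z) -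
      2 * ((aff u (ix m 3) + aff u (ix m (m + 1)) * s ^ (m - 3)) * (z - 1)) := by
  rw [xz_ex hm hx]
  unfold qh
  rw [tf_cons hm hx, Mx_ex hm hx, Matrix.adjugate_one, Matrix.det_one, Matrix.one_mulVec, Pi.neg_apply]
  have h1 : dl (cS m S) (⟨m - 1, by omega⟩ : Fin m) (aff u) (xe m s) (yh (cS m S) (aff u) z) =
      2 * sf (cS m S) (aff u) (xe m s) (yh (cS m S) (aff u) z) := by
    unfold dl
    rw [dif_neg (by simp; omega)]
  rw [h1, sf_xe hm hx, tf_ex, xe_zero, xe_m hm, xe_last, li_xe hm, xe_ix _ (by omega) (by omega), yh_zero hm hx,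
    yh_one hm hx]
  have h3 : m - (m - 1) = 1 := by omega
  rw [h3]
  linear_combination (z - z * lm m s + (hf S + hf S) * (s * (s - 1) * (z - m) * lm m s) +
    s * (s - 1) * (z - m) * lm m s -
    2 * (aff u (ix m (m + 1)) * z + (aff u (ix m 3) + aff u (ix m (m + 1)) * s ^ (m - 3)) * (z - 1))) * hf_add (S := S)

end Pool.Agent.Helper60.H2
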