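import Mathlib
import Pool.Agent.Helper60.H2.ExEq

/-!
# Type 2: the example, the polynomial `λ`
-/

namespace Pool.Agent.Helper60.H2

open Pool.Agent.Helper60.HN (lam mu zr pz pz_eq pz_root pz_der mu_one_ne mu_root zr_zero zr_one)

theorem mu_succ (k : ℕ) (hk : 1 ≤ k) :
    mu (k + 1) = mu k * (Polynomial.X - Polynomial.C ((k + 1 : ℕ) : ℚ)) := by
  unfold mu
  rw [Finset.prod_Icc_succ_top (by omega), mul_assoc]

/-- `z (z - 1) (z - m) λ(z)`. -/
noncomputable def ps (m : ℕ) : Polynomial ℚ :=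
  Polynomial.X * (Polynomial.X - 1) * (Polynomial.X - Polynomial.C (m : ℚ)) * lam (m - 1)

theorem ps_eq (m : ℕ) (hm : 2 ≤ m) : ps m = Polynomial.C ((mu (m - 1)).eval 1)⁻¹ * pz m := by
  obtain ⟨k, rfl⟩ : ∃ k, m = k + 1 := ⟨m - 1, by omega⟩
  rw [pz_eq (k + 1) (by omega), mu_succ k (by omega)]
  unfold ps lam
  have h : k + 1 - 1 = k := rfl
  rw [h]
  ring

theorem ps_root (m : ℕ) (hm : 2 ≤ m) (a : Fin (m + 2)) : (ps m).eval (zr m a) = 0 := by
  rw [ps_eq m hm, Polynomial.eval_mul, pz_root, mul_zero]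

theorem ps_der (m : ℕ) (hm : 2 ≤ m) (a : Fin (m + 2)) : (ps m).derivative.eval (zr m a) ≠ 0 := by
  rw [ps_eq m hm, Polynomial.derivative_C_mul, Polynomial.eval_mul, Polynomial.eval_C]
  exact mul_ne_zero (inv_ne_zero (mu_one_ne (m - 1))) (pz_der m a)

theorem ps_der_eval (m : ℕ) (z : ℚ) : (ps m).derivative.eval z =
    ((2 * z - 1) * (z - m) + z * (z - 1)) * (lam (m - 1)).eval z +
      z * (z - 1) * (z - m) * (lam (m - 1)).derivative.eval z := by
  unfold ps
  simp only [Polynomial.derivative_mul, Polynomial.derivative_X, Polynomial.derivative_sub, Polynomial.derivative_one,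
    Polynomial.derivative_C, Polynomial.eval_add, Polynomial.eval_mul, Polynomial.eval_sub, Polynomial.eval_X,
    Polynomial.eval_one, Polynomial.eval_zero, Polynomial.eval_C]
  ring

theorem lam_root (m : ℕ) (hm : 2 ≤ m) {a : Fin (m + 2)} (h0 : zr m a ≠ 0) (h1 : zr m a ≠ 1) (h2 : zr m a ≠ m) :
    (lam (m - 1)).eval (zr m a) = 0 := by
  have h3 := mu_root m (by omega) h0 h1
  obtain ⟨k, rfl⟩ : ∃ k, m = k + 1 := ⟨m - 1, by omega⟩
  rw [mu_succ k (by omega), Polynomial.eval_mul, Polynomial.eval_sub, Polynomial.eval_X, Polynomial.eval_C] at h3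
  have h4 := (mul_eq_zero.1 h3).resolve_right (sub_ne_zero.2 h2)
  have h : k + 1 - 1 = k := rfl
  rw [h]
  unfold lam
  rw [Polynomial.eval_mul, h4, mul_zero]

theorem mu_eval (k : ℕ) (z : ℚ) : (mu k).eval z = (z + 1) * ∏ b ∈ Finset.Icc 2 k, (z - b) := by
  unfold mu
  rw [Polynomial.eval_mul, Polynomial.eval_prod]
  simp only [Polynomial.eval_add, Polynomial.eval_X, Polynomial.eval_one, Polynomial.eval_sub, Polynomial.eval_C]

theorem lam_top (m : ℕ) (hm : 2 ≤ m) : ((lam (m - 1)).eval (m : ℚ)) ^ 2 = ((m + 1) / 2) ^ 2 := by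
  obtain ⟨k, rfl⟩ : ∃ k, m = k + 1 := ⟨m - 1, by omega⟩
  have h : k + 1 - 1 = k := rfl
  have h1 := mu_one_ne k
  have h3 : ∏ b ∈ Finset.Icc 2 k, (((k + 1 : ℕ) : ℚ) - b) = ∏ b ∈ Finset.Icc 2 k, ((b : ℚ) - 1) := by
    refine Finset.prod_nbij' (fun b => k + 2 - b) (fun b => k + 2 - b) ?_ ?_ ?_ ?_ ?_
    · intro b hb
      rw [Finset.mem_Icc] at hb ⊢
      omega
    · intro b hb
      rw [Finset.mem_Icc] at hb ⊢
      omega
    · intro b hb
      rw [Finset.mem_Icc] at hb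
      show k + 2 - (k + 2 - b) = b
      omega
    · intro b hb
      rw [Finset.mem_Icc] at hb
      show k + 2 - (k + 2 - b) = b
      omega
    · intro b hb
      rw [Finset.mem_Icc] at hb
      rw [Nat.cast_sub (by omega)]
      push_cast
      ring
  have h4 : ∏ b ∈ Finset.Icc 2 k, ((b : ℚ) - 1) =
      (-1) ^ (Finset.Icc 2 k).card * ∏ b ∈ Finset.Icc 2 k, ((1 : ℚ) - b) := by
    rw [← Finset.prod_const, ← Finset.prod_mul_distrib]
    refine Finset.prod_congr rfl fun b _ => ?_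
    ring
  rw [h]
  unfold lam
  rw [Polynomial.eval_mul, Polynomial.eval_C, mu_eval, mu_eval, h3, h4]
  rw [mu_eval] at h1
  have h5 : ∏ b ∈ Finset.Icc 2 k, ((1 : ℚ) - b) ≠ 0 := right_ne_zero_of_mul h1
  have h6 : (((-1 : ℚ)) ^ (Finset.Icc 2 k).card) ^ 2 = 1 := by
    rw [← pow_mul, mul_comm, pow_mul]
    norm_num
  generalize ((-1 : ℚ)) ^ (Finset.Icc 2 k).card = e at h6 ⊢
  generalize ∏ b ∈ Finset.Icc 2 k, ((1 : ℚ) - b) = P at h5 ⊢
  have h7 : ((1 + 1) * P)⁻¹ * ((((k + 1 : ℕ) : ℚ) + 1) * (e * P)) = (((k + 1 : ℕ) : ℚ) + 1) / 2 * e := by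
    field_simp
    ring
  rw [h7, mul_pow, h6, mul_one]

theorem lam_der_one (k : ℕ) (hk : 1 ≤ k) : (lam k).derivative.eval 1 ≤ 1 / 2 := by
  have h : ∀ j : ℕ, ((mu (j + 1)).eval 1)⁻¹ * (mu (j + 1)).derivative.eval 1 ≤ 1 / 2 := by
    intro j
    induction j with
    | zero =>
      have h1 : mu (0 + 1) = Polynomial.X + 1 := by
        unfold mu
        simp
      rw [h1]
      simp
      norm_num
    | succ j ih =>
      have h1 := mu_one_ne (j + 1)
      rw [mu_succ (j + 1) (by omega), Polynomial.derivative_mul, Polynomial.derivative_sub, Polynomial.derivative_X,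
        Polynomial.derivative_C]
      simp only [Polynomial.eval_add, Polynomial.eval_mul, Polynomial.eval_sub, Polynomial.eval_X, Polynomial.eval_C,
        Polynomial.eval_one, Polynomial.eval_zero]
      have hj : (0 : ℚ) < (j + 1 : ℕ) := by positivity
      have h2 : ((1 : ℚ) - (j + 1 + 1 : ℕ)) = - ((j + 1 : ℕ) : ℚ) := by
        push_cast
        ring
      rw [h2]
      have h3 : ((mu (j + 1)).eval 1 * - ((j + 1 : ℕ) : ℚ))⁻¹ *
          ((mu (j + 1)).derivative.eval 1 * - ((j + 1 : ℕ) : ℚ) + (mu (j + 1)).eval 1 * (1 - 0)) =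
          ((mu (j + 1)).eval 1)⁻¹ * (mu (j + 1)).derivative.eval 1 - ((j + 1 : ℕ) : ℚ)⁻¹ := by
        field_simp
        ring
      rw [h3]
      have h4 : (0 : ℚ) < ((j + 1 : ℕ) : ℚ)⁻¹ := inv_pos.2 hj
      linarith
  obtain ⟨j, rfl⟩ : ∃ j, k = j + 1 := ⟨k - 1, by omega⟩
  unfold lam
  rw [Polynomial.derivative_C_mul, Polynomial.eval_mul, Polynomial.eval_C]
  exact h j

theorem lam_der_neg (m : ℕ) : 1 / 2 ≤ (lam m).derivative.eval (-1) := by
  have h3 : (mu m).derivative.eval (-1) = ∏ b ∈ Finset.Icc 2 m, ((-1 : ℚ) - b) := by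
    unfold mu
    rw [Polynomial.derivative_mul, Polynomial.eval_add, Polynomial.eval_mul, Polynomial.eval_mul, Polynomial.eval_prod]
    simp only [Polynomial.derivative_add, Polynomial.derivative_X, Polynomial.derivative_one, Polynomial.eval_add,
      Polynomial.eval_X, Polynomial.eval_one, Polynomial.eval_sub, Polynomial.eval_C, Polynomial.eval_zero]
    ring
  unfold lam
  rw [Polynomial.derivative_C_mul, Polynomial.eval_mul, Polynomial.eval_C, mu_eval, h3, mul_inv, mul_assoc,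
    ← Finset.prod_inv_distrib, ← Finset.prod_mul_distrib]
  have h4 : ∏ b ∈ Finset.Icc 2 m, (1 : ℚ) ≤ ∏ b ∈ Finset.Icc 2 m, (((1 : ℚ) - b)⁻¹ * (-1 - b)) := by
    refine Finset.prod_le_prod (fun _ _ => zero_le_one) fun b hb => ?_
    rw [Finset.mem_Icc] at hb
    have h5 : (2 : ℚ) ≤ b := by exact_mod_cast hb.1
    have h6 : ((1 : ℚ) - b)⁻¹ * (-1 - b) = (b + 1) / (b - 1) := by
      have h7 : (b : ℚ) - 1 ≠ 0 := by
        intro h
        linarith
      have h8 : (1 : ℚ) - b ≠ 0 := by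
        intro h
        linarith
      field_simp
      ring
    rw [h6, le_div_iff₀ (by linarith)]
    linarith
  rw [Finset.prod_const_one] at h4
  have h9 : ((1 : ℚ) + 1)⁻¹ = 1 / 2 := by norm_num
  rw [h9]
  linarith

end Pool.Agent.Helper60.H2
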