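import Mathlib
import Pool.Agent.Helper60.H2.ExPoly
import Pool.Agent.Helper60.HN.ExJac

/-!
# Type 2: the example, the Jacobian of the square system is invertible
-/

namespace Pool.Agent.Helper60.H2

open MvPolynomial
open Pool.Agent.Helper24.H2 hiding dl
open Pool.Agent.Helper28.HN (I Un En cr aff)
open Pool.Agent.Helper60.HN (ix sg lam mu li li_sg ix_val ix_eq ix_succ ix_cast zr pz dl dl_fst dl_snd dl_ext dl_add
  dl_mul dl_sub dl_eq_zero dl_cast dl_one dl_pow aff_ix dl_two lam_one zr_zero zr_one zr_last lam_coeff)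

theorem k0_inr (m : ℕ) (a : Fin (m + 2)) : k0 m (.inr a) = zr m a := rfl

/-- Taylor expansion of `λ`. -/
theorem lm_dl (m : ℕ) (a b : ℚ) :
    lm m (dl a b) = dl ((lam (m - 1)).eval a) (b * (lam (m - 1)).derivative.eval a) :=
  Pool.Agent.Helper60.HN.lm_dl (m - 1) a b

theorem hf_dl : hf (DualNumber ℚ) = dl (1 / 2) 0 := dl_cast _

theorem nat_dl (n : ℕ) : (n : DualNumber ℚ) = dl n 0 := by
  rw [← dl_cast, map_natCast]

theorem neg_dl (a b : ℚ) : - dl a b = dl (- a) (- b) :=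
  dl_ext (by rw [TrivSqZeroExt.fst_neg, dl_fst]) (by rw [TrivSqZeroExt.snd_neg, dl_snd])

theorem nil_dl {m : ℕ} (v : Fin (m + 1) → ℚ) : Nil (aff (fun i => dl 0 (v i)) : I m → DualNumber ℚ) where
  one := rfl
  sq i j hi hj := by
    obtain ⟨i, rfl⟩ := Fin.exists_succ_eq.2 hi
    obtain ⟨j, rfl⟩ := Fin.exists_succ_eq.2 hj
    show dl 0 (v i) * dl 0 (v j) = 0
    rw [dl_mul, dl_eq_zero]
    constructor <;> ring

theorem La_zero {m : ℕ} (hm : 4 ≤ m) : La m 0 = 0 := by
  unfold La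
  have h0 : (0 : I m).val = 0 := rfl
  rw [h0, if_neg (by omega), if_neg (by omega)]
  have := Pool.Agent.Helper60.HN.lam_coeff_succ (m - 1) (by omega)
  have h : m - 0 = m - 1 + 1 := by omega
  rw [h, this]

theorem li_dl {m : ℕ} (hm : 4 ≤ m) (v : Fin (m + 1) → ℚ) :
    li (La m) (aff (fun i => dl 0 (v i)) : I m → DualNumber ℚ) =
      dl 0 (∑ i : Fin (m + 1), La m i.succ * v i) := by
  unfold li
  rw [Fin.sum_univ_succ, La_zero hm, map_zero, zero_mul, zero_add]
  have h1 : ∀ i : Fin (m + 1), algebraMap ℚ (DualNumber ℚ) (La m i.succ) *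
      (aff (fun i => dl 0 (v i)) : I m → DualNumber ℚ) i.succ = dl 0 (La m i.succ * v i) := by
    intro i
    have h2 : (aff (fun i => dl 0 (v i)) : I m → DualNumber ℚ) i.succ = dl 0 (v i) := rfl
    rw [h2, dl_cast, dl_mul]
    congr 1 <;> ring
  rw [Finset.sum_congr rfl fun i _ => h1 i]
  refine dl_ext ?_ ?_
  · rw [TrivSqZeroExt.fst_sum]
    exact Finset.sum_eq_zero fun i _ => dl_fst _ _
  · rw [TrivSqZeroExt.snd_sum]
    exact Finset.sum_congr rfl fun i _ => dl_snd _ _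

/-- The positivity behind the Jacobian. -/
theorem pos_aux {m D l t x3 w1 wl e : ℚ} (hm : 4 ≤ m) (hD : 5 / 2 ≤ D) (hl : l ≤ 1 / 2) (he : e = 1 ∨ e = -1)
    (h1 : (m - 1) * w1 + 2 * t = 0) (h2 : D * wl = t + 2 * (x3 + t * e))
    (h3 : -2 * wl + (2 * l - 3 - m) * w1 + 2 * t + 4 * (x3 + t) = 0)
    (h4 : t = 0 ∨ x3 = (m + 1) * t) : t = 0 ∧ x3 = 0 := by
  have h5 : x3 * (4 * (m - 1) * (D - 1)) +
      t * ((m - 1) * (6 * D - 2 * (1 + 2 * e)) + 2 * D * (3 + m - 2 * l)) = 0 := by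
    linear_combination ((m - 1) * D) * h3 + 2 * (m - 1) * h2 - D * (2 * l - 3 - m) * h1
  have h6 : 0 < 4 * (m - 1) * (D - 1) := by
    have : 0 < m - 1 := by linarith
    have : 0 < D - 1 := by linarith
    positivity
  have h7 : 0 < (m - 1) * (6 * D - 2 * (1 + 2 * e)) + 2 * D * (3 + m - 2 * l) := by
    have h8 : 0 < m - 1 := by linarith
    have h9 : 0 < 6 * D - 2 * (1 + 2 * e) := by
      rcases he with rfl | rfl <;> linarith
    have h10 : 0 < 3 + m - 2 * l := by linarith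
    have h11 : 0 < D := by linarith
    positivity
  rcases h4 with h4 | h4
  · refine ⟨h4, ?_⟩
    rw [h4, zero_mul, add_zero] at h5
    exact (mul_eq_zero.1 h5).resolve_right h6.ne'
  · have h8 : t * ((m + 1) * (4 * (m - 1) * (D - 1)) +
        ((m - 1) * (6 * D - 2 * (1 + 2 * e)) + 2 * D * (3 + m - 2 * l))) = 0 := by
      rw [h4] at h5
      linear_combination h5
    have h9 : 0 < (m + 1) * (4 * (m - 1) * (D - 1)) +
        ((m - 1) * (6 * D - 2 * (1 + 2 * e)) + 2 * D * (3 + m - 2 * l)) := by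
      have : 0 < (m + 1) * (4 * (m - 1) * (D - 1)) := mul_pos (by linarith) h6
      linarith
    have h10 := (mul_eq_zero.1 h8).resolve_right h9.ne'
    exact ⟨h10, by rw [h4, h10, mul_zero]⟩

/-- The derivative of the system is injective. -/
theorem jac_zero {m : ℕ} (hm : 4 ≤ m) (v : Un m → ℚ)
    (h : ∀ i : En m, Eqn (cS m (DualNumber ℚ)) (fun j => dl (k0 m j) (v j)) i = 0) : v = 0 := by
  obtain ⟨u, hu⟩ : ∃ u : Fin (m + 1) → ℚ, u = fun i => v (.inl i) := ⟨_, rfl⟩
  obtain ⟨U, hU⟩ : ∃ U : Fin (m + 1) → DualNumber ℚ, U = fun i => dl 0 (u i) := ⟨_, rfl⟩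
  have hx' : (fun i => dl (k0 m (.inl i)) (v (.inl i))) = U := by
    rw [hU, hu]
    rfl
  have hx : Nil (aff U : I m → DualNumber ℚ) := by rw [hU]; exact nil_dl u
  obtain ⟨L, hL⟩ : ∃ L : ℚ, L = ∑ i : Fin (m + 1), La m i.succ * u i := ⟨_, rfl⟩
  have hli : li (La m) (aff U : I m → DualNumber ℚ) = dl 0 L := by
    rw [hU, li_dl hm, hL]
  have e1 : (aff U : I m → DualNumber ℚ) (ix m (m + 1)) = dl 0 (u ⟨m, by omega⟩) := by
    rw [hU, aff_ix _ (by omega) le_rfl]
    rfl
  have e2 : (aff U : I m → DualNumber ℚ) (ix m m) = dl 0 (u ⟨m - 1, by omega⟩) := by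
    rw [hU, aff_ix _ (by omega) (by omega)]
  have e2' : (aff U : I m → DualNumber ℚ) (ix m (m - 1)) = dl 0 (u ⟨m - 2, by omega⟩) := by
    rw [hU, aff_ix _ (by omega) (by omega)]
    rfl
  have e3 : (aff U : I m → DualNumber ℚ) (ix m 3) = dl 0 (u ⟨2, by omega⟩) := by
    rw [hU, aff_ix _ (by omega) (by omega)]
  have e4 : (aff U : I m → DualNumber ℚ) (ix m 2) = dl 0 (u ⟨1, by omega⟩) := by
    rw [hU, aff_ix _ (by omega) (by omega)]
  have hm2 : 2 ≤ m := by omega
  have hmq : (4 : ℚ) ≤ m := by exact_mod_cast hm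
  -- the equation of `Ah`
  have f2 : L = 0 := by
    have h1 : Ah (cS m (DualNumber ℚ)) _ = 0 := h (.inr (.inl 2))
    rw [hx', Ah_ex hm hx, hli] at h1
    exact (dl_eq_zero.1 h1).2
  -- the equation of `Bh`
  have f3 : u ⟨m, by omega⟩ = u ⟨m - 1, by omega⟩ := by
    have h1 : Bh (cS m (DualNumber ℚ)) _ = 0 := h (.inr (.inl 3))
    rw [hx', Bh_ex hm hx, hli, e1, e2, f2, hf_dl] at h1
    simp only [dl_mul, dl_sub] at h1
    have h2 := (dl_eq_zero.1 h1).2
    linear_combination 2 * h2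
  -- the equation of `Fh`
  have f1 : u ⟨m - 2, by omega⟩ = (m + 1) * u ⟨m, by omega⟩ := by
    have h1 : Fh (cS m (DualNumber ℚ)) _ (dl (k0 m (.inr 0)) (v (.inr 0))) = 0 := h (.inr (.inl 1))
    rw [hx', Fh_ex hm hx, hli, e1, e2, e2', k0_inr, zr_zero, nat_dl] at h1
    simp only [dl_mul, dl_add, dl_sub, dl_pow, neg_dl] at h1
    have h2 := (dl_eq_zero.1 h1).2
    rw [f2] at h2
    linear_combination - h2 - (m + 1) * f3
  -- the equation of `kah`
  have f4 : v (.inr 0) = 0 → u ⟨1, by omega⟩ = 0 := by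
    intro hv
    have h1 : kah (cS m (DualNumber ℚ)) _ (dl (k0 m (.inr 0)) (v (.inr 0))) = 0 := h (.inr (.inl 0))
    rw [hx', kah_ex hm hx, e3, e4, k0_inr, zr_zero, hv] at h1
    simp only [dl_mul, dl_add, dl_sub, dl_one, dl_two, dl_pow] at h1
    have h2 := (dl_eq_zero.1 h1).2
    linear_combination - h2
  -- the equations of `psh`
  have f5 : ∀ a : Fin (m + 2), - (1 / 2) * (ps m).derivative.eval (zr m a) * v (.inr a) +
      u ⟨m, by omega⟩ * zr m a + (u ⟨2, by omega⟩ + u ⟨m, by omega⟩ * zr m a ^ (m - 3)) * (zr m a - 1) = 0 := by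
    intro a
    have h1 : psh (cS m (DualNumber ℚ)) _ (dl (k0 m (.inr a)) (v (.inr a))) = 0 := h (.inl a)
    rw [hx', psh_ex hm hx, e1, e3, k0_inr, lm_dl, nat_dl, hf_dl] at h1
    simp only [dl_mul, dl_add, dl_sub, dl_one, dl_pow, neg_dl] at h1
    have h2 := (dl_eq_zero.1 h1).2
    rw [ps_der_eval]
    linear_combination h2
  -- the equation of `qh`
  have f6 : -2 * v (.inr (Fin.last (m + 1))) + (2 * (lam (m - 1)).derivative.eval 1 - 3 - m) * v (.inr 1) +
      2 * u ⟨m, by omega⟩ + 4 * (u ⟨2, by omega⟩ + u ⟨m, by omega⟩) = 0 := by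
    have h1 : qh (cS m (DualNumber ℚ)) _ (xz (cS m (DualNumber ℚ)) _ (dl (k0 m (.inr 1)) (v (.inr 1))))
      (dl (k0 m (.inr (Fin.last (m + 1)))) (v (.inr (Fin.last (m + 1))))) = 0 := h (.inr (.inl 4))
    rw [hx', qh_ex hm hx, e1, e3, k0_inr, k0_inr, lm_dl, nat_dl, zr_last, zr_one m (by omega), lam_one] at h1
    simp only [dl_mul, dl_add, dl_sub, dl_one, dl_two, dl_pow, neg_dl] at h1
    have h2 := (dl_eq_zero.1 h1).2
    simp only [one_pow] at h2
    linear_combination h2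
  -- the derivatives at `1` and `-1`
  have d1 : (ps m).derivative.eval 1 = - (m - 1) := by
    rw [ps_der_eval, lam_one]
    ring
  have d2 : (ps m).derivative.eval (-1) = - (2 * ((m + 1) * (lam (m - 1)).derivative.eval (-1))) := by
    have h3 : (lam (m - 1)).eval (-1) = 0 := by
      have := lam_root m hm2 (a := Fin.last (m + 1)) (by rw [zr_last]; norm_num) (by rw [zr_last]; norm_num)
        (by rw [zr_last]; intro h9; linarith)
      rwa [zr_last] at this
    rw [ps_der_eval, h3]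
    ring
  have g0 : u ⟨m, by omega⟩ = 0 ∧ u ⟨2, by omega⟩ = 0 := by
    have p1 := f5 1
    rw [zr_one m (by omega), d1, one_pow] at p1
    have p2 := f5 (Fin.last (m + 1))
    rw [zr_last, d2] at p2
    refine pos_aux (m := m) (D := (m + 1) * (lam (m - 1)).derivative.eval (-1))
      (l := (lam (m - 1)).derivative.eval 1) (w1 := v (.inr 1)) (wl := v (.inr (Fin.last (m + 1))))
      (e := (-1) ^ (m - 3)) hmq ?_ (lam_der_one _ (by omega)) (neg_one_pow_eq_or ℚ (m - 3)) ?_ ?_ ?_ ?_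
    · have h8 := lam_der_neg (m - 1)
      have h9 : (5 : ℚ) * (1 / 2) ≤ (m + 1) * (lam (m - 1)).derivative.eval (-1) :=
        mul_le_mul (by linarith) h8 (by norm_num) (by linarith)
      linarith
    · linear_combination 2 * p1
    · linear_combination p2
    · linear_combination f6
    · by_cases h5 : 5 ≤ m
      · left
        have h2 : dl (k0 m (.inl ⟨m - 2, by omega⟩)) (v (.inl ⟨m - 2, by omega⟩)) = 0 :=
          h (.inr (.inr ⟨⟨m - 2, by omega⟩, by simp; omega⟩))
        have h3 : u ⟨m - 2, by omega⟩ = 0 := by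
          rw [hu]
          exact (dl_eq_zero.1 h2).2
        rw [h3] at f1
        have h4 : (m : ℚ) + 1 ≠ 0 := by linarith
        exact (mul_eq_zero.1 f1.symm).resolve_left h4
      · right
        have h6 : (⟨m - 2, by omega⟩ : Fin (m + 1)) = ⟨2, by omega⟩ := Fin.ext (by simp; omega)
        rw [← h6, f1]
  obtain ⟨g1, g2⟩ := g0
  have g4 : ∀ a, v (.inr a) = 0 := by
    intro a
    have p1 := f5 a
    rw [g1, g2] at p1
    have p2 : (ps m).derivative.eval (zr m a) * v (.inr a) = 0 := by linear_combination (-2) * p1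
    exact (mul_eq_zero.1 p2).resolve_left (ps_der m hm2 a)
  have g3 : ∀ i : Fin (m + 1), i.val ≠ 0 → u i = 0 := by
    intro i hi
    by_cases h1 : 3 ≤ i.val ∧ i.val + 2 ≤ m
    · have h2 : dl (k0 m (.inl i)) (v (.inl i)) = 0 := h (.inr (.inr ⟨i, h1⟩))
      rw [hu]
      exact (dl_eq_zero.1 h2).2
    · have h2 := i.isLt
      have h3 : i.val = 1 ∨ i.val = 2 ∨ i.val = m - 1 ∨ i.val = m := by omega
      rcases h3 with h3 | h3 | h3 | h3
      · have : i = ⟨1, by omega⟩ := Fin.ext h3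
        rw [this, f4 (g4 0)]
      · have : i = ⟨2, by omega⟩ := Fin.ext h3
        rw [this, g2]
      · have : i = ⟨m - 1, by omega⟩ := Fin.ext h3
        rw [this, ← f3, g1]
      · have : i = ⟨m, by omega⟩ := Fin.ext h3
        rw [this, g1]
  have g5 : u 0 = 0 := by
    rw [hL, Finset.sum_eq_single 0] at f2
    · have h1 : La m (0 : Fin (m + 1)).succ = (lam (m - 1)).coeff (m - 1) := by
        unfold La
        have h3 : (0 : Fin (m + 1)).succ.val = 1 := by simp
        rw [h3, if_neg (by omega), if_neg (by omega)]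
      rw [h1] at f2
      exact (mul_eq_zero.1 f2).resolve_left (lam_coeff (m - 1) (by omega))
    · intro i _ hi
      rw [g3 i fun h => hi (Fin.ext h), mul_zero]
    · intro h
      exact absurd (Finset.mem_univ _) h
  funext j
  rcases j with i | a
  · have g6 : u i = 0 := by
      by_cases hi : i.val = 0
      · have : i = 0 := Fin.ext hi
        rw [this, g5]
      · exact g3 i hi
    rw [hu] at g6
    exact g6
  · exact g4 a

end Pool.Agent.Helper60.H2
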