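import Mathlib
import Pool.Agent.Helper60.H2.ExJac
import Pool.Agent.Helper45.H2.NatP

/-!
# Type 2: the example: the point lies on the system, nothing degenerates, the Jacobian is invertible
-/

namespace Pool.Agent.Helper60.H2

open MvPolynomial
open Pool.Agent.Helper24.H2 hiding dl
open Pool.Agent.Helper28.HN (I Un En cr aff)
open Pool.Agent.Helper60.HN (ix sg lam mu li li_sg ix_val ix_eq ix_succ ix_cast zr pz dl dl_fst dl_snd dl_ext dl_add
  dl_mul dl_sub dl_eq_zero dl_cast dl_one dl_pow aff_ix dl_two lam_one zr_zero zr_one zr_last zr_cast zr_inj lam_coeff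
  lam_zero aeval_dl)

theorem cS_rat (m : ℕ) : cS m ℚ = c0 m := rfl

theorem aff_zero_ix {m : ℕ} {S : Type*} [CommRing S] {j : ℕ} (h1 : 1 ≤ j) (h2 : j ≤ m + 1) :
    (aff (0 : Fin (m + 1) → S) : I m → S) (ix m j) = 0 := by
  rw [aff_ix _ h1 h2]
  rfl

theorem k0_inl (m : ℕ) : (fun i => k0 m (.inl i)) = 0 := rfl

theorem nil_zero {m : ℕ} {S : Type*} [CommRing S] : Nil (aff (0 : Fin (m + 1) → S) : I m → S) where
  one := rfl
  sq i j hi hj := by
    obtain ⟨i, rfl⟩ := Fin.exists_succ_eq.2 hi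
    show (0 : S) * _ = 0
    rw [zero_mul]

theorem li_zero {m : ℕ} (hm : 4 ≤ m) : li (La m) (aff (0 : Fin (m + 1) → ℚ) : I m → ℚ) = 0 := by
  unfold li
  rw [Fin.sum_univ_succ, La_zero hm, map_zero, zero_mul, zero_add]
  refine Finset.sum_eq_zero fun i _ => ?_
  have h2 : (aff (0 : Fin (m + 1) → ℚ) : I m → ℚ) i.succ = 0 := rfl
  rw [h2, mul_zero]

theorem lm_rat (m : ℕ) (z : ℚ) : lm m z = (lam (m - 1)).eval z := by
  unfold lm
  rw [Polynomial.coe_aeval_eq_eval]

theorem hf_rat : hf ℚ = 1 / 2 := rfl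

theorem psh_zero {m : ℕ} (hm : 4 ≤ m) (z : ℚ) : psh (c0 m) (aff 0) z = - (1 / 2) * (ps m).eval z := by
  rw [← cS_rat, psh_ex hm nil_zero, aff_zero_ix (by omega) le_rfl, aff_zero_ix (by omega) (by omega), lm_rat, hf_rat]
  unfold ps
  simp only [Polynomial.eval_mul, Polynomial.eval_sub, Polynomial.eval_X, Polynomial.eval_one, Polynomial.eval_C]
  ring

theorem kah_zero {m : ℕ} (hm : 4 ≤ m) (z : ℚ) :
    kah (c0 m) (aff 0) z = z + 2 * (z ^ (m - 3) * (z - 1)) := by
  rw [← cS_rat, kah_ex hm nil_zero, aff_zero_ix (by omega) (by omega), aff_zero_ix (by omega) (by omega)]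
  ring

theorem qh_zero {m : ℕ} (hm : 4 ≤ m) (s z : ℚ) :
    qh (c0 m) (aff 0) (xz (c0 m) 0 s) z =
      (z - s) + (z ^ 2 - z + s * (s - 1) * (z - m - 1)) * (lam (m - 1)).eval s := by
  have h := qh_ex hm (nil_zero (m := m) (S := ℚ)) s z
  rw [cS_rat, aff_zero_ix (by omega) le_rfl, aff_zero_ix (by omega) (by omega), lm_rat] at h
  rw [h]
  ring

/-- The point is a solution. -/
theorem ex_eqn {m : ℕ} (hm : 4 ≤ m) (i : En m) : Eqn (c0 m) (k0 m) i = 0 := by
  rcases i with a | i | i
  · show psh (c0 m) (aff fun i => k0 m (.inl i)) (k0 m (.inr a)) = 0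
    rw [k0_inl, psh_zero hm, k0_inr, ps_root m (by omega), mul_zero]
  · fin_cases i
    · show kah (c0 m) (aff fun i => k0 m (.inl i)) (k0 m (.inr 0)) = 0
      have h3 : (0 : ℚ) ^ (m - 3) = 0 := zero_pow (by omega)
      rw [k0_inl, kah_zero hm, k0_inr, zr_zero, h3]
      ring
    · show Fh (c0 m) (aff fun i => k0 m (.inl i)) (k0 m (.inr 0)) = 0
      rw [k0_inl, ← cS_rat, Fh_ex hm nil_zero, li_zero hm, aff_zero_ix (by omega) le_rfl,
        aff_zero_ix (by omega) (by omega), aff_zero_ix (by omega) (by omega)]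
      ring
    · show Ah (c0 m) (aff fun i => k0 m (.inl i)) = 0
      rw [k0_inl, ← cS_rat, Ah_ex hm nil_zero, li_zero hm]
    · show Bh (c0 m) (aff fun i => k0 m (.inl i)) = 0
      rw [k0_inl, ← cS_rat, Bh_ex hm nil_zero, li_zero hm, aff_zero_ix (by omega) le_rfl,
        aff_zero_ix (by omega) (by omega)]
      ring
    · show qh (c0 m) (aff fun i => k0 m (.inl i)) (xz (c0 m) (fun i => k0 m (.inl i)) (k0 m (.inr 1)))
        (k0 m (.inr (Fin.last (m + 1)))) = 0
      rw [k0_inl, qh_zero hm, k0_inr, k0_inr, zr_last, zr_one m (by omega), lam_one]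
      norm_num
  · rfl

theorem qh_ne {m : ℕ} (hm : 4 ≤ m) (a b : Fin (m + 2)) (h : ¬ (a = b ∨ (a = 1 ∧ b = Fin.last (m + 1)))) :
    qh (c0 m) (aff 0) (xz (c0 m) 0 (zr m a)) (zr m b) ≠ 0 := by
  rw [not_or, not_and] at h
  obtain ⟨hab, h1⟩ := h
  rw [qh_zero hm]
  have hmq : (4 : ℚ) ≤ m := by exact_mod_cast hm
  by_cases ha0 : a = 0
  · have hb : zr m b ≠ 0 := by
      intro h2
      exact hab (zr_inj m (by rw [ha0, zr_zero, h2]))
    have hc : (((m - 1 : ℕ)) : ℚ) = m - 1 := by
      rw [Nat.cast_sub (by omega)]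
      norm_num
    rw [ha0, zr_zero, lam_zero (m - 1) (by omega), hc]
    have h3 : zr m b * (1 + (zr m b - 1) * ((m - 1) / 2)) ≠ 0 := by
      refine mul_ne_zero hb ?_
      rcases Fin.eq_castSucc_or_eq_last b with ⟨c, rfl⟩ | rfl
      · rw [zr_cast] at hb ⊢
        have h4 : (1 : ℚ) ≤ c.val := by
          have : c.val ≠ 0 := fun h => hb (by rw [h]; simp)
          exact_mod_cast Nat.one_le_iff_ne_zero.2 this
        have h5 : (0 : ℚ) ≤ (c.val - 1) * ((m - 1) / 2) := mul_nonneg (by linarith) (by linarith)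
        linarith
      · rw [zr_last]
        intro h6
        linarith
    intro h4
    exact h3 (by linear_combination h4)
  · have hz0 : zr m a ≠ 0 := by
      intro h2
      exact ha0 (zr_inj m (by rw [h2, zr_zero]))
    by_cases ha1 : a = 1
    · rw [ha1, zr_one m (by omega), lam_one]
      have h2 : zr m b ≠ 1 := by
        intro h3
        exact hab (zr_inj m (by rw [ha1, zr_one m (by omega), h3]))
      have h3 : zr m b ≠ -1 := by
        intro h4
        exact h1 ha1 (zr_inj m (by rw [zr_last, h4]))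
      have h4 : (zr m b - 1) * (zr m b + 1) ≠ 0 := mul_ne_zero (sub_ne_zero.2 h2) (by
        intro h5
        exact h3 (by linarith))
      intro h5
      exact h4 (by linear_combination h5)
    · have hz1 : zr m a ≠ 1 := by
        intro h2
        exact ha1 (zr_inj m (by rw [h2, zr_one m (by omega)]))
      have hzz : zr m b - zr m a ≠ 0 := by
        intro h2
        exact hab (zr_inj m (by linarith))
      by_cases hz2 : zr m a = m
      · rw [hz2] at hzz ⊢
        have hl := lam_top m (by omega)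
        generalize (lam (m - 1)).eval (m : ℚ) = l at hl ⊢
        have hb : (-1 : ℚ) ≤ zr m b := by
          rcases Fin.eq_castSucc_or_eq_last b with ⟨c, rfl⟩ | rfl
          · rw [zr_cast]
            have : (0 : ℚ) ≤ (c.val : ℚ) := Nat.cast_nonneg _
            linarith
          · rw [zr_last]
        generalize zr m b = z at hb hzz ⊢
        have h3 : 1 + l * (z + m ^ 2 - 1) ≠ 0 := by
          intro h4
          have h5 : (l ^ 2) * (z + m ^ 2 - 1) ^ 2 = 1 := by linear_combination (l * (z + m ^ 2 - 1) - 1) * h4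
          rw [hl] at h5
          have h6 : (2 : ℚ) ≤ z + m ^ 2 - 1 := by nlinarith
          have h7 : (1 : ℚ) ≤ (m + 1) / 2 := by linarith
          have h8 : (1 : ℚ) ≤ ((m + 1) / 2) ^ 2 := one_le_pow₀ h7
          nlinarith
        have h4 := mul_ne_zero hzz h3
        intro h5
        exact h4 (by linear_combination h5)
      · rw [lam_root m (by omega) hz0 hz1 hz2, mul_zero, add_zero]
        exact hzz

theorem kah_ne {m : ℕ} (hm : 4 ≤ m) (a : Fin (m + 1)) : kah (c0 m) (aff 0) (zr m a.succ) ≠ 0 := by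
  rw [kah_zero hm]
  rcases Fin.eq_castSucc_or_eq_last a.succ with ⟨c, hc⟩ | hc
  · rw [hc, zr_cast]
    have h1 : 1 ≤ c.val := by
      have := congrArg Fin.val hc
      simp at this
      omega
    have h2 : (1 : ℚ) ≤ c.val := by exact_mod_cast h1
    have h3 : (0 : ℚ) ≤ (c.val : ℚ) ^ (m - 3) * (c.val - 1) := mul_nonneg (by positivity) (by linarith)
    intro h5
    linarith
  · rw [hc, zr_last]
    rcases neg_one_pow_eq_or ℚ (m - 3) with h | h
    · rw [h]
      norm_num
    · rw [h]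
      norm_num

theorem psP_ex {m : ℕ} (hm : 4 ≤ m) : psP (c0 m) (aff 0) = Polynomial.C (- (1 / 2)) * ps m := by
  have h0 : (fun i => Polynomial.C ((aff (0 : Fin (m + 1) → ℚ) : I m → ℚ) i)) =
      (aff (0 : Fin (m + 1) → Polynomial ℚ) : I m → Polynomial ℚ) := by
    funext i
    refine Fin.cases ?_ (fun j => ?_) i
    · show Polynomial.C 1 = (1 : Polynomial ℚ)
      rw [map_one]
    · show Polynomial.C 0 = (0 : Polynomial ℚ)
      rw [map_zero]
  have h1 : (fun e => Polynomial.C (c0 m e)) = cS m (Polynomial ℚ) := rfl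
  have h2 : hf (Polynomial ℚ) = Polynomial.C (1 / 2) := rfl
  have h3 : (m : Polynomial ℚ) = Polynomial.C (m : ℚ) := (map_natCast Polynomial.C m).symm
  unfold psP
  rw [h0, h1, psh_ex hm nil_zero, aff_zero_ix (by omega) le_rfl, aff_zero_ix (by omega) (by omega), h2, h3, map_neg]
  unfold lm ps
  rw [Polynomial.aeval_X_left_apply]
  ring

theorem Vm_row {m : ℕ} (hm : 4 ≤ m) (a i : Fin (m + 1)) : Vm (c0 m) (k0 m) a i = xe m (zr m a.succ) i.succ := by
  show vh (c0 m) (yh (c0 m) (aff fun i => k0 m (.inl i)) (k0 m (.inr a.succ))) i = _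
  rw [k0_inl, ← cS_rat, vh_ex hm _ (yh_zero hm nil_zero _), yh_one hm nil_zero, k0_inr]

/-- The polynomial of a vector. -/
noncomputable def vp (m : ℕ) (v : Fin (m + 1) → ℚ) : Polynomial ℚ :=
  ∑ i : Fin (m + 1), Polynomial.C (if i.val = m - 1 then 0 else v i) * Polynomial.X ^ (m - 1 - i.val)

theorem vp_eval {m : ℕ} (hm : 4 ≤ m) (v : Fin (m + 1) → ℚ) (z : ℚ) :
    (vp m v).eval z = ∑ i : Fin (m + 1), xe m z i.succ * v i +
      z * (z - 1) * (lam (m - 1)).eval z * v ⟨m - 1, by omega⟩ := by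
  have h1 : z * (z - 1) * (lam (m - 1)).eval z * v ⟨m - 1, by omega⟩ =
      ∑ i : Fin (m + 1), if i = ⟨m - 1, by omega⟩ then z * (z - 1) * (lam (m - 1)).eval z * v i else 0 := by
    rw [Finset.sum_ite_eq' Finset.univ, if_pos (Finset.mem_univ _)]
  rw [h1, ← Finset.sum_add_distrib]
  unfold vp
  rw [Polynomial.eval_finsetSum]
  refine Finset.sum_congr rfl fun i _ => ?_
  rw [Polynomial.eval_mul, Polynomial.eval_C, Polynomial.eval_pow, Polynomial.eval_X]
  have hi := i.isLt
  unfold xe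
  by_cases h2 : i.val = m - 1
  · have h3 : i = ⟨m - 1, by omega⟩ := Fin.ext h2
    rw [if_pos h2, if_pos h3, if_neg (by simp), if_neg (by simp; omega), if_pos (by simp; omega), lm_rat]
    ring
  · have h3 : i ≠ ⟨m - 1, by omega⟩ := fun h => h2 (congrArg Fin.val h)
    rw [if_neg h2, if_neg h3, if_neg (by simp)]
    by_cases h4 : i.val = m
    · rw [if_pos (by simp; omega), h4]
      have h5 : m - 1 - m = 0 := by omega
      rw [h5]
      ring
    · rw [if_neg (by simp; omega), if_neg (by simp; omega)]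
      have h5 : m - i.succ.val = m - 1 - i.val := by
        simp
        omega
      rw [h5]
      ring

theorem vp_coeff {m : ℕ} (hm : 4 ≤ m) (v : Fin (m + 1) → ℚ) (i : Fin (m + 1)) (hi : i.val ≠ m - 1) :
    (vp m v).coeff (m - 1 - i.val) = v i := by
  unfold vp
  rw [Polynomial.finsetSum_coeff, Finset.sum_eq_single i]
  · rw [Polynomial.coeff_C_mul_X_pow, if_pos rfl, if_neg hi]
  · intro j _ hj
    rw [Polynomial.coeff_C_mul_X_pow]
    by_cases h1 : j.val = m - 1
    · rw [if_pos h1, ite_self]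
    · rw [if_neg]
      intro h2
      have h3 := i.isLt
      have h4 := j.isLt
      exact hj (Fin.ext (by omega))
  · intro h
    exact absurd (Finset.mem_univ _) h

theorem vp_deg {m : ℕ} (hm : 4 ≤ m) (v : Fin (m + 1) → ℚ) : (vp m v).natDegree < m := by
  have h : (vp m v).natDegree ≤ m - 1 := by
    unfold vp
    refine Polynomial.natDegree_sum_le_of_forall_le _ _ fun i _ => ?_
    refine (Polynomial.natDegree_C_mul_X_pow_le _ _).trans ?_
    omega
  omega

theorem Vm_ex {m : ℕ} (hm : 4 ≤ m) : (Vm (c0 m) (k0 m)).det ≠ 0 := by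
  intro h0
  obtain ⟨v, hv, hv0⟩ := Matrix.exists_mulVec_eq_zero_iff.2 h0
  have hmq : (4 : ℚ) ≤ m := by exact_mod_cast hm
  have hr : ∀ a : Fin (m + 1), ∑ i : Fin (m + 1), xe m (zr m a.succ) i.succ * v i = 0 := by
    intro a
    have h1 := congrFun hv0 a
    rw [Matrix.mulVec, dotProduct] at h1
    rw [← show _ = (0 : ℚ) from h1]
    exact Finset.sum_congr rfl fun i _ => by rw [Vm_row hm]
  have hq : ∀ a : Fin (m + 1), zr m a.succ ≠ m → (vp m v).eval (zr m a.succ) = 0 := by
    intro a ha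
    have h2 : zr m a.succ ≠ 0 := by
      intro h3
      have h4 := zr_inj m (h3.trans (zr_zero m).symm)
      exact Fin.succ_ne_zero _ h4
    rw [vp_eval hm, hr, zero_add]
    by_cases h3 : zr m a.succ = 1
    · rw [h3]
      ring
    · rw [lam_root m (by omega) h2 h3 ha]
      ring
  obtain ⟨f, hf⟩ : ∃ f : Fin m → Fin (m + 1), f = fun i => if i.val = 0 then Fin.last m else
    ⟨i.val - 1, by have := i.isLt; omega⟩ := ⟨_, rfl⟩
  have hfi : Function.Injective f := by
    intro i j hij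
    have h1 := congrArg Fin.val hij
    have h2 := i.isLt
    have h3 := j.isLt
    rw [hf] at h1
    refine Fin.ext ?_
    by_cases h4 : i.val = 0 <;> by_cases h5 : j.val = 0
    · omega
    · simp only [if_pos h4, if_neg h5, Fin.val_last] at h1
      omega
    · simp only [if_neg h4, if_pos h5, Fin.val_last] at h1
      omega
    · simp only [if_neg h4, if_neg h5] at h1
      omega
  have hfz : ∀ i, zr m (f i).succ ≠ m := by
    intro i
    have h2 := i.isLt
    rw [hf]
    by_cases h4 : i.val = 0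
    · simp only [if_pos h4]
      have h5 : (Fin.last m).succ = Fin.last (m + 1) := rfl
      rw [h5, zr_last]
      intro h6
      linarith
    · simp only [if_neg h4]
      have h5 : (⟨i.val - 1, by omega⟩ : Fin (m + 1)).succ = (⟨i.val, by omega⟩ : Fin (m + 1)).castSucc := by
        refine Fin.ext ?_
        simp
        omega
      rw [h5, zr_cast]
      intro h6
      have h7 : i.val = m := by exact_mod_cast h6
      omega
  have hP : vp m v = 0 := by
    refine Polynomial.eq_zero_of_natDegree_lt_card_of_eval_eq_zero (vp m v)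
      (f := fun i : Fin m => zr m (f i).succ) ?_ (fun i => hq _ (hfz i)) ?_
    · intro i j hij
      exact hfi (Fin.succ_injective _ (zr_inj m hij))
    · rw [Fintype.card_fin]
      exact vp_deg hm v
  have h1 : ∀ i : Fin (m + 1), i.val ≠ m - 1 → v i = 0 := by
    intro i hi
    rw [← vp_coeff hm v i hi, hP, Polynomial.coeff_zero]
  have h2 : v ⟨m - 1, by omega⟩ = 0 := by
    have h3 := vp_eval hm v (m : ℚ)
    have h4 := hr ⟨m - 1, by omega⟩
    have h5 : zr m (⟨m - 1, by omega⟩ : Fin (m + 1)).succ = m := by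
      have h6 : (⟨m - 1, by omega⟩ : Fin (m + 1)).succ = (⟨m, by omega⟩ : Fin (m + 1)).castSucc := by
        refine Fin.ext ?_
        simp
        omega
      rw [h6, zr_cast]
    rw [h5] at h4
    rw [hP, Polynomial.eval_zero, h4, zero_add] at h3
    have hl := lam_top m (by omega)
    have h7 : (lam (m - 1)).eval (m : ℚ) ≠ 0 := by
      intro h8
      rw [h8] at hl
      have h9 : (0 : ℚ) < ((m + 1) / 2) ^ 2 := by positivity
      linarith
    have h8 : (m : ℚ) * (m - 1) * (lam (m - 1)).eval (m : ℚ) ≠ 0 :=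
      mul_ne_zero (mul_ne_zero (by linarith) (by linarith)) h7
    exact (mul_eq_zero.1 h3.symm).resolve_left h8
  refine hv (funext fun i => ?_)
  by_cases hi : i.val = m - 1
  · have h3 : i = ⟨m - 1, by omega⟩ := Fin.ext hi
    rw [h3, h2]
    rfl
  · exact h1 i hi

/-- Nothing degenerates. -/
theorem ex_pp {m : ℕ} (hm : 4 ≤ m) : Pp (c0 m) (k0 m) ≠ 0 := by
  unfold Pp
  rw [k0_inl]
  refine mul_ne_zero (mul_ne_zero (mul_ne_zero (mul_ne_zero (mul_ne_zero (mul_ne_zero (mul_ne_zero ?_ ?_) ?_) ?_) ?_)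
    ?_) ?_) ?_
  · rw [← cS_rat, Mx_ex hm nil_zero, Matrix.det_one]
    exact one_ne_zero
  · refine Finset.prod_ne_zero_iff.2 fun a _ => Finset.prod_ne_zero_iff.2 fun b _ => ?_
    split_ifs with h
    · exact one_ne_zero
    · exact sub_ne_zero.2 fun h1 => h (zr_inj m h1)
  · refine Finset.prod_ne_zero_iff.2 fun a _ => ?_
    rw [← cS_rat, det_Nx hm _ (yh_zero hm nil_zero _)]
    exact one_ne_zero
  · exact Finset.prod_ne_zero_iff.2 fun a _ => kah_ne hm a
  · refine Finset.prod_ne_zero_iff.2 fun a _ => ?_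
    rw [← cS_rat, th_ex hm nil_zero]
    norm_num
  · refine Finset.prod_ne_zero_iff.2 fun a _ => ?_
    rw [psP_ex hm, Polynomial.derivative_C_mul, Polynomial.eval_mul, Polynomial.eval_C]
    exact mul_ne_zero (by norm_num) (ps_der m (by omega) a)
  · refine Finset.prod_ne_zero_iff.2 fun a _ => Finset.prod_ne_zero_iff.2 fun b _ => ?_
    split_ifs with h
    · exact one_ne_zero
    · exact qh_ne hm a b h
  · exact Vm_ex hm

/-- The Jacobian of the square system is invertible. -/
theorem ex_jac {m : ℕ} (hm : 4 ≤ m) (e : Un m ≃ En m) :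
    (Matrix.of fun i j => eval (Sum.elim (c0 m) (k0 m)) (pderiv (Sum.inr j)
      (Eqn (fun e => X (Sum.inl e)) (fun j => X (Sum.inr j)) (e i) : MvPolynomial (Ix m ⊕ Un m) ℚ))).det ≠ 0 := by
  intro h0
  obtain ⟨v, hv, hv0⟩ := Matrix.exists_mulVec_eq_zero_iff.2 h0
  refine hv (jac_zero hm v fun i => ?_)
  obtain ⟨j, rfl⟩ := e.surjective i
  have h1 := aeval_dl (Sum.elim (c0 m) (k0 m)) (Sum.elim (0 : Ix m → ℚ) v)
    (Eqn (fun e => X (Sum.inl e)) (fun j => X (Sum.inr j)) (e j) : MvPolynomial (Ix m ⊕ Un m) ℚ)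
  have h2 : (aeval (fun s => dl (Sum.elim (c0 m) (k0 m) s) (Sum.elim (0 : Ix m → ℚ) v s)))
      (Eqn (fun e => X (Sum.inl e)) (fun j => X (Sum.inr j)) (e j) : MvPolynomial (Ix m ⊕ Un m) ℚ) =
      Eqn (cS m (DualNumber ℚ)) (fun j => dl (k0 m j) (v j)) (e j) := by
    have h3 := Pool.Agent.Helper45.H2.map_Eqn
      (aeval (R := ℚ) (fun s => dl (Sum.elim (c0 m) (k0 m) s) (Sum.elim (0 : Ix m → ℚ) v s)) :
      MvPolynomial (Ix m ⊕ Un m) ℚ →ₐ[ℚ] DualNumber ℚ).toRingHom
      (fun e => X (Sum.inl e)) (fun j => X (Sum.inr j)) (e j)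
    refine h3.trans ?_
    congr 1
    · funext s
      show aeval _ (X (Sum.inl s)) = _
      rw [aeval_X]
      show dl (c0 m s) 0 = algebraMap ℚ (DualNumber ℚ) (c0 m s)
      rw [dl_cast]
    · funext s
      show aeval _ (X (Sum.inr s)) = _
      rw [aeval_X]
      rfl
  have h4 : (eval (Sum.elim (c0 m) (k0 m)))
      (Eqn (fun e => X (Sum.inl e)) (fun j => X (Sum.inr j)) (e j) : MvPolynomial (Ix m ⊕ Un m) ℚ) = 0 := by
    have h5 := Pool.Agent.Helper45.H2.map_Eqn (eval (Sum.elim (c0 m) (k0 m)))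
      (fun e => X (Sum.inl e)) (fun j => X (Sum.inr j)) (e j)
    rw [h5]
    have h6 : (fun s => (eval (Sum.elim (c0 m) (k0 m))) (X (Sum.inl s) : MvPolynomial (Ix m ⊕ Un m) ℚ)) = c0 m := by
      funext s
      rw [eval_X]
      rfl
    have h7 : (fun s => (eval (Sum.elim (c0 m) (k0 m))) (X (Sum.inr s) : MvPolynomial (Ix m ⊕ Un m) ℚ)) = k0 m := by
      funext s
      rw [eval_X]
      rfl
    rw [h6, h7]
    exact ex_eqn hm (e j)
  have h5 : (∑ s : Ix m ⊕ Un m, Sum.elim (0 : Ix m → ℚ) v s * (eval (Sum.elim (c0 m) (k0 m))) (pderiv s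
      (Eqn (fun e => X (Sum.inl e)) (fun j => X (Sum.inr j)) (e j) : MvPolynomial (Ix m ⊕ Un m) ℚ))) = 0 := by
    rw [Fintype.sum_sum_type]
    have h6 : ∀ s : Ix m, Sum.elim (0 : Ix m → ℚ) v (.inl s) * (eval (Sum.elim (c0 m) (k0 m))) (pderiv (.inl s)
      (Eqn (fun e => X (Sum.inl e)) (fun j => X (Sum.inr j)) (e j) : MvPolynomial (Ix m ⊕ Un m) ℚ)) = 0 := by
      intro s
      show (0 : ℚ) * _ = 0
      rw [zero_mul]
    rw [Finset.sum_eq_zero fun s _ => h6 s, zero_add]
    have h7 := congrFun hv0 j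
    rw [Matrix.mulVec, dotProduct] at h7
    rw [← show _ = (0 : ℚ) from h7]
    refine Finset.sum_congr rfl fun s _ => ?_
    show v s * _ = _ * v s
    rw [mul_comm]
    rfl
  rw [← h2, h1, h4, h5]
  exact dl_eq_zero.2 ⟨rfl, rfl⟩

end Pool.Agent.Helper60.H2
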